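import Mathlib
import Pool.Agent.helper6.LD.Defs

/-!
Counting zeros of the Riemann zeta function with multiplicity: finiteness, monotonicity,
subadditivity, and the comparison with the divisor used in Jensen's formula.
-/

set_option autoImplicit false

open Complex Metric

namespace Pool.Agent.helper6.LD

theorem zeros_finite {S : Set ℂ} (hb : Bornology.IsBounded S) :
    {ρ : ℂ | ρ ∈ S ∧ riemannZeta ρ = 0}.Finite := by
  have hc : IsCompact (closure S) := hb.isCompact_closure
  refine hc.inter_riemannZetaZeros_finite.subset ?_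
  intro ρ hρ
  exact ⟨subset_closure hρ.1, hρ.2⟩

theorem h30_analyticAt {ρ : ℂ} (h : riemannZeta ρ = 0) : AnalyticAt ℂ riemannZeta ρ := by
  apply analyticOn_riemannZeta
  intro h1
  rw [Set.mem_singleton_iff] at h1
  subst h1
  exact riemannZeta_one_ne_zero h

/-- The multiplicity of a zero is at least one. -/
theorem order_pos {ρ : ℂ} (h : riemannZeta ρ = 0) : 1 ≤ analyticOrderNatAt riemannZeta ρ := by
  have ha := h30_analyticAt h
  have h0 : analyticOrderAt riemannZeta ρ ≠ 0 := by
    rw [analyticOrderAt_ne_zero]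
    exact ⟨ha, h⟩
  have htop : analyticOrderAt riemannZeta ρ ≠ ⊤ := by
    rw [Ne, analyticOrderAt_eq_top]
    intro hev
    have hfin := zeros_finite (isBounded_closedBall (x := ρ) (r := 1))
    have hinf : {z : ℂ | z ∈ closedBall ρ 1 ∧ riemannZeta z = 0}.Infinite := by
      have hmem : {z : ℂ | z ∈ closedBall ρ 1 ∧ riemannZeta z = 0} ∈ nhds ρ := by
        filter_upwards [hev, closedBall_mem_nhds ρ one_pos] with z h1 h2
        exact ⟨h2, h1⟩
      exact infinite_of_mem_nhds ρ hmem
    exact hinf hfin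
  have h1 : analyticOrderNatAt riemannZeta ρ ≠ 0 := by
    intro h2
    apply h0
    rw [← Nat.cast_analyticOrderNatAt htop, h2]
    rfl
  omega

theorem h30_zc_eq {S : Set ℂ} (hb : Bornology.IsBounded S) :
    zc S = ∑ ρ ∈ (zeros_finite hb).toFinset, analyticOrderNatAt riemannZeta ρ := by
  rw [zc, finsum_mem_eq_finite_toFinset_sum _ (zeros_finite hb)]

theorem h30_zc_congr {S S' : Set ℂ} (h : ∀ ρ, riemannZeta ρ = 0 → (ρ ∈ S ↔ ρ ∈ S')) :
    zc S = zc S' := by
  have : {ρ : ℂ | ρ ∈ S ∧ riemannZeta ρ = 0} = {ρ : ℂ | ρ ∈ S' ∧ riemannZeta ρ = 0} := by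
    ext ρ
    constructor
    · rintro ⟨h1, h2⟩
      exact ⟨(h ρ h2).mp h1, h2⟩
    · rintro ⟨h1, h2⟩
      exact ⟨(h ρ h2).mpr h1, h2⟩
  rw [zc, zc, this]

theorem zc_mono {S S' : Set ℂ} (h : S ⊆ S') (hb : Bornology.IsBounded S') : zc S ≤ zc S' := by
  rw [h30_zc_eq hb, h30_zc_eq (hb.subset h)]
  apply Finset.sum_le_sum_of_subset
  intro ρ hρ
  rw [Set.Finite.mem_toFinset] at hρ ⊢
  exact ⟨h hρ.1, hρ.2⟩

theorem h30_zc_union_le {S S' : Set ℂ} (hb : Bornology.IsBounded S) (hb' : Bornology.IsBounded S') :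
    zc (S ∪ S') ≤ zc S + zc S' := by
  classical
  rw [h30_zc_eq hb, h30_zc_eq hb', h30_zc_eq (hb.union hb')]
  have hsub : (zeros_finite (hb.union hb')).toFinset ⊆
      (zeros_finite hb).toFinset ∪ (zeros_finite hb').toFinset := by
    intro ρ hρ
    rw [Finset.mem_union]
    rw [Set.Finite.mem_toFinset] at hρ ⊢
    rw [Set.Finite.mem_toFinset]
    rcases hρ.1 with h1 | h1
    · exact Or.inl ⟨h1, hρ.2⟩
    · exact Or.inr ⟨h1, hρ.2⟩
  refine (Finset.sum_le_sum_of_subset hsub).trans ?_
  rw [← Finset.sum_union_inter]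
  exact Nat.le_add_right _ _

theorem zc_union_le {ι : Type*} (F : Finset ι) (S : ι → Set ℂ)
    (hb : ∀ i ∈ F, Bornology.IsBounded (S i)) : zc (⋃ i ∈ F, S i) ≤ ∑ i ∈ F, zc (S i) := by
  classical
  induction F using Finset.induction_on with
  | empty =>
    have : (⋃ i ∈ (∅ : Finset ι), S i) = ∅ := by simp
    rw [this, h30_zc_eq Bornology.isBounded_empty]
    simp
  | insert a F ha ih =>
    rw [Finset.set_biUnion_insert, Finset.sum_insert ha]
    have hb2 : Bornology.IsBounded (⋃ i ∈ F, S i) := by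
      rw [Bornology.isBounded_biUnion_finset]
      intro i hi
      exact hb i (Finset.mem_insert_of_mem hi)
    refine (h30_zc_union_le (hb a (Finset.mem_insert_self a F)) hb2).trans ?_
    exact Nat.add_le_add_left (ih (fun i hi => hb i (Finset.mem_insert_of_mem hi))) _

/-- `zc` of a closed ball away from `1` is the sum of the divisor. -/
theorem h30_zc_divisor {c : ℂ} {r : ℝ} (h1 : (1 : ℂ) ∉ closedBall c r) :
    ((zc (closedBall c r) : ℕ) : ℤ) =
      ∑ᶠ u, MeromorphicOn.divisor riemannZeta (closedBall c r) u := by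
  classical
  have han : AnalyticOnNhd ℂ riemannZeta (closedBall c r) := by
    apply analyticOn_riemannZeta.mono
    intro z hz h2
    rw [Set.mem_singleton_iff] at h2
    subst h2
    exact h1 hz
  have hval : ∀ u ∈ closedBall c r, MeromorphicOn.divisor riemannZeta (closedBall c r) u =
      (analyticOrderNatAt riemannZeta u : ℤ) := by
    intro u hu
    rw [MeromorphicOn.AnalyticOnNhd.divisor_apply han hu, analyticOrderNatAt]
    cases h3 : analyticOrderAt riemannZeta u with
    | top => simp
    | coe n => simp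
  rw [h30_zc_eq isBounded_closedBall]
  rw [finsum_eq_sum_of_support_subset
    (s := (zeros_finite (isBounded_closedBall (x := c) (r := r))).toFinset)]
  · push_cast
    apply Finset.sum_congr rfl
    intro u hu
    rw [Set.Finite.mem_toFinset] at hu
    exact (hval u hu.1).symm
  · intro u hu
    rw [Function.mem_support] at hu
    rw [Set.Finite.coe_toFinset]
    by_cases hmem : u ∈ closedBall c r
    · refine ⟨hmem, ?_⟩
      rw [hval u hmem] at hu
      apply apply_eq_zero_of_analyticOrderNatAt_ne_zero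
      exact_mod_cast hu
    · exact absurd (Function.locallyFinsuppWithin.apply_eq_zero_of_notMem _ hmem) hu

end Pool.Agent.helper6.LD
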