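import Mathlib
import Pool.Agent.helper30.LD.J0
import Pool.Agent.helper85.LD.G1

/-!
Bounds for the number of zeros of the Riemann zeta function in discs and unit windows
(Jensen's inequality).
-/

set_option autoImplicit false

open Complex Metric

namespace Pool.Agent.helper6.LD

/-- zeros in a disc touching the line `Re = 1/4` -/
theorem zc_disc (M : ℝ) (hM : 2 ≤ M) : ∃ C : ℝ, 0 < C ∧ ∀ y : ℝ, M + 2 ≤ y →
    (zc (closedBall ((M : ℂ) + y * I) (M - 1 / 4)) : ℝ) ≤ C * Real.log y := by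
  obtain ⟨C₀, hC₀, hgr⟩ := zeta_growth
  set A : ℝ := 4 * (3 * C₀ + 1) with hA
  have hA1 : 1 < A := by rw [hA]; linarith
  have hlogA : 0 < Real.log A := Real.log_pos hA1
  have hratio : 1 < (M - 1 / 8) / (M - 1 / 4) := by
    rw [one_lt_div (by linarith)]
    linarith
  have hlr : 0 < Real.log ((M - 1 / 8) / (M - 1 / 4)) := Real.log_pos hratio
  refine ⟨(Real.log A + 1) / Real.log ((M - 1 / 8) / (M - 1 / 4)), by positivity, ?_⟩
  intro y hy
  set c : ℂ := (M : ℂ) + y * I with hc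
  have hcre : c.re = M := by simp [hc]
  have hcim : c.im = y := by simp [hc]
  have hy4 : 4 ≤ y := by linarith
  have hlogy : 1 ≤ Real.log y := by
    rw [Real.le_log_iff_exp_le (by linarith)]
    have := Real.exp_one_lt_d9
    linarith
  have hball : ∀ z ∈ closedBall c (M - 1 / 8), 1 / 8 ≤ z.re ∧ 1 ≤ z.im ∧ ‖z‖ ≤ 3 * y := by
    intro z hz
    rw [mem_closedBall, dist_eq_norm] at hz
    have h1 := (Complex.abs_re_le_norm (z - c)).trans hz
    have h2 := (Complex.abs_im_le_norm (z - c)).trans hz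
    rw [Complex.sub_re, hcre, abs_le] at h1
    rw [Complex.sub_im, hcim, abs_le] at h2
    refine ⟨by linarith [h1.1], by linarith [h2.1], ?_⟩
    have h3 : ‖z‖ ≤ |z.re| + |z.im| := Complex.norm_le_abs_re_add_abs_im z
    have h4 : ‖z‖ ≤ ‖z - c‖ + ‖c‖ := by
      have := norm_add_le (z - c) c
      simpa using this
    have h5 : ‖c‖ ≤ M + y := by
      have := Complex.norm_le_abs_re_add_abs_im c
      rw [hcre, hcim, abs_of_nonneg (by linarith : (0:ℝ) ≤ M), abs_of_nonneg (by linarith : (0:ℝ) ≤ y)] at this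
      exact this
    linarith
  have h1not : (1 : ℂ) ∉ closedBall c (M - 1 / 8) := by
    intro h
    have := (hball 1 h).2.1
    simp at this
    linarith
  have h1not' : (1 : ℂ) ∉ closedBall c (M - 1 / 4) := by
    intro h
    exact h1not (closedBall_subset_closedBall (by linarith) h)
  have hr : |M - 1 / 4| = M - 1 / 4 := abs_of_pos (by linarith)
  have hR : |M - 1 / 8| = M - 1 / 8 := abs_of_pos (by linarith)
  have hlow : 1 / 4 ≤ ‖riemannZeta c‖ := zeta_lower (by rw [hcre]; exact hM)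
  have hne : riemannZeta c ≠ 0 := by
    intro h
    rw [h, norm_zero] at hlow
    linarith
  have hjen := AnalyticOnNhd.sum_divisor_le (c := c) (r := M - 1 / 4) (R := M - 1 / 8)
    (M := (3 * C₀ + 1) * y) (f := riemannZeta)
    (by rw [hr]; linarith) (by rw [hr, hR]; linarith) (by nlinarith)
    (by
      rw [hR]
      apply analyticOn_riemannZeta.mono
      intro z hz h2
      rw [Set.mem_singleton_iff] at h2
      subst h2
      exact h1not hz)
    hne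
    (by
      rw [hR]
      intro z hz
      obtain ⟨e1, e2, e3⟩ := hball z (sphere_subset_closedBall hz)
      refine (hgr z e1 (by rw [abs_of_nonneg (by linarith)]; exact e2)).trans ?_
      nlinarith)
  rw [hr, ← h30_zc_divisor h1not'] at hjen
  have hzc : (zc (closedBall c (M - 1 / 4)) : ℝ) ≤
      Real.log ((3 * C₀ + 1) * y / ‖riemannZeta c‖) /
        Real.log ((M - 1 / 8) / (M - 1 / 4)) := by
    exact_mod_cast hjen
  refine hzc.trans ?_
  rw [div_mul_eq_mul_div]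
  apply div_le_div_of_nonneg_right _ hlr.le
  have h6 : (3 * C₀ + 1) * y / ‖riemannZeta c‖ ≤ A * y := by
    rw [div_le_iff₀ (by linarith)]
    have h7 : A * y * (1 / 4) ≤ A * y * ‖riemannZeta c‖ :=
      mul_le_mul_of_nonneg_left hlow (by positivity)
    have h8 : A * y * (1 / 4) = (3 * C₀ + 1) * y := by rw [hA]; ring
    linarith
  have h9 : 0 < (3 * C₀ + 1) * y / ‖riemannZeta c‖ := by
    have : 0 < ‖riemannZeta c‖ := by linarith
    positivity
  calc Real.log ((3 * C₀ + 1) * y / ‖riemannZeta c‖) ≤ Real.log (A * y) := Real.log_le_log h9 h6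
    _ = Real.log A + Real.log y := Real.log_mul (by positivity) (by positivity)
    _ ≤ (Real.log A + 1) * Real.log y := by nlinarith

/-- zeros in a unit window -/
theorem zc_window : ∃ C : ℝ, 0 < C ∧ ∀ t : ℝ, 1 ≤ t →
    (zc {ρ : ℂ | 1 / 2 ≤ ρ.re ∧ t ≤ ρ.im ∧ ρ.im ≤ t + 1} : ℝ) ≤ C * Real.log (t + 2) := by
  obtain ⟨C, hC, hdisc⟩ := zc_disc 4 (by norm_num)
  set K : Set ℂ := {ρ : ℂ | 1 / 2 ≤ ρ.re ∧ ρ.re ≤ 1 ∧ 1 ≤ ρ.im ∧ ρ.im ≤ 7} with hK
  have hKb : Bornology.IsBounded K := by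
    apply (isBounded_closedBall (x := (0 : ℂ)) (r := 8)).subset
    rintro ρ ⟨h1, h2, h3, h4⟩
    rw [mem_closedBall, dist_zero_right]
    refine (Complex.norm_le_abs_re_add_abs_im ρ).trans ?_
    rw [abs_of_nonneg (by linarith), abs_of_nonneg (by linarith)]
    linarith
  have hre : ∀ ρ : ℂ, riemannZeta ρ = 0 → ρ.re ≤ 1 := by
    intro ρ h
    by_contra h2
    push Not at h2
    exact riemannZeta_ne_zero_of_one_le_re h2.le h
  refine ⟨C + zc K, by positivity, ?_⟩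
  intro t ht
  have hlog1 : 1 ≤ Real.log (t + 2) := by
    rw [Real.le_log_iff_exp_le (by linarith)]
    have := Real.exp_one_lt_d9
    linarith
  have hzK : (0 : ℝ) ≤ zc K := Nat.cast_nonneg _
  rcases le_or_gt t 6 with h6 | h6
  · have h1 : zc {ρ : ℂ | 1 / 2 ≤ ρ.re ∧ t ≤ ρ.im ∧ ρ.im ≤ t + 1} =
        zc {ρ : ℂ | 1 / 2 ≤ ρ.re ∧ ρ.re ≤ 1 ∧ t ≤ ρ.im ∧ ρ.im ≤ t + 1} := by
      apply h30_zc_congr
      intro ρ hρ
      constructor
      · rintro ⟨a1, a2, a3⟩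
        exact ⟨a1, hre ρ hρ, a2, a3⟩
      · rintro ⟨a1, _, a2, a3⟩
        exact ⟨a1, a2, a3⟩
    have h2 : zc {ρ : ℂ | 1 / 2 ≤ ρ.re ∧ t ≤ ρ.im ∧ ρ.im ≤ t + 1} ≤ zc K := by
      rw [h1]
      apply zc_mono _ hKb
      rintro ρ ⟨a1, a2, a3, a4⟩
      exact ⟨a1, a2, by linarith, by linarith⟩
    have h3 : (zc {ρ : ℂ | 1 / 2 ≤ ρ.re ∧ t ≤ ρ.im ∧ ρ.im ≤ t + 1} : ℝ) ≤ zc K := by
      exact_mod_cast h2
    nlinarith
  · have hd := hdisc (t + 1 / 2) (by linarith)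
    have h1 : zc {ρ : ℂ | 1 / 2 ≤ ρ.re ∧ t ≤ ρ.im ∧ ρ.im ≤ t + 1} =
        zc {ρ : ℂ | 1 / 2 ≤ ρ.re ∧ ρ.re ≤ 1 ∧ t ≤ ρ.im ∧ ρ.im ≤ t + 1} := by
      apply h30_zc_congr
      intro ρ hρ
      constructor
      · rintro ⟨a1, a2, a3⟩
        exact ⟨a1, hre ρ hρ, a2, a3⟩
      · rintro ⟨a1, _, a2, a3⟩
        exact ⟨a1, a2, a3⟩
    have h2 : zc {ρ : ℂ | 1 / 2 ≤ ρ.re ∧ t ≤ ρ.im ∧ ρ.im ≤ t + 1} ≤
        zc (closedBall (((4 : ℝ) : ℂ) + ((t + 1 / 2 : ℝ) : ℂ) * I) (4 - 1 / 4)) := by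
      rw [h1]
      apply zc_mono _ isBounded_closedBall
      rintro ρ ⟨a1, a2, a3, a4⟩
      rw [mem_closedBall, dist_eq_norm]
      have e1 : (ρ - (((4 : ℝ) : ℂ) + ((t + 1 / 2 : ℝ) : ℂ) * I)).re = ρ.re - 4 := by simp
      have e2 : (ρ - (((4 : ℝ) : ℂ) + ((t + 1 / 2 : ℝ) : ℂ) * I)).im = ρ.im - (t + 1 / 2) := by
        simp
      have e3 : ‖ρ - (((4 : ℝ) : ℂ) + ((t + 1 / 2 : ℝ) : ℂ) * I)‖ ^ 2 ≤ (4 - 1 / 4) ^ 2 := by
        rw [Complex.sq_norm, Complex.normSq_apply, e1, e2]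
        nlinarith
      exact abs_le_of_sq_le_sq' e3 (by norm_num) |>.2
    have h3 : (zc {ρ : ℂ | 1 / 2 ≤ ρ.re ∧ t ≤ ρ.im ∧ ρ.im ≤ t + 1} : ℝ) ≤
        zc (closedBall (((4 : ℝ) : ℂ) + ((t + 1 / 2 : ℝ) : ℂ) * I) (4 - 1 / 4)) := by
      exact_mod_cast h2
    have h4 : Real.log (t + 1 / 2) ≤ Real.log (t + 2) :=
      Real.log_le_log (by linarith) (by linarith)
    nlinarith

end Pool.Agent.helper6.LD
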