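import Mathlib
import Pool.Agent.helper6.LD.Defs

/-!
A radius in `[a, 1]` that keeps a distance from finitely many given numbers, on geometric average.
-/

set_option autoImplicit false

open Finset Polynomial

namespace Pool.Agent.helper6.LD

/-- T1: a radius far from given numbers -/
theorem exists_radius {ι : Type*} (S : Finset ι) (x : ι → ℝ) {a : ℝ} (ha : a < 1) :
    ∃ r : ℝ, a ≤ r ∧ r ≤ 1 ∧ ((1 - a) / (2 * Real.exp 1)) ^ S.card ≤ ∏ i ∈ S, |r - x i| := by
  classical
  rcases Nat.eq_zero_or_pos S.card with h0 | hpos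
  · refine ⟨1, ha.le, le_refl 1, ?_⟩
    rw [Finset.card_eq_zero] at h0
    subst h0
    simp
  by_contra hcon
  push Not at hcon
  set n : ℕ := S.card with hn
  have hnR : (0 : ℝ) < n := by exact_mod_cast hpos
  set h : ℝ := (1 - a) / n with hh
  have hh0 : 0 < h := div_pos (by linarith) hnR
  set P : ℝ[X] := ∏ i ∈ S, (C h * X + C (a - x i)) with hP
  have hne : ∀ i ∈ S, (C h * X + C (a - x i) : ℝ[X]) ≠ 0 := by
    intro i _ hz
    have h1 := natDegree_linear (b := a - x i) hh0.ne'
    rw [hz, natDegree_zero] at h1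
    exact zero_ne_one h1
  have hdeg : P.natDegree = n := by
    rw [hP, natDegree_prod _ _ hne]
    rw [Finset.sum_congr rfl (fun i _ => natDegree_linear (b := a - x i) hh0.ne')]
    simp [hn]
  have hlead : P.leadingCoeff = h ^ n := by
    rw [hP, leadingCoeff_prod]
    rw [Finset.prod_congr rfl (fun i _ => leadingCoeff_linear (b := a - x i) hh0.ne')]
    simp [hn]
  have heval : ∀ t : ℝ, P.eval t = ∏ i ∈ S, ((a + t * h) - x i) := by
    intro t
    rw [hP, eval_prod]
    apply Finset.prod_congr rfl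
    intro i _
    simp
    ring
  have key := congrFun P.fwdDiff_iter_degree_eq_factorial 0
  rw [hdeg, hlead, fwdDiff_iter_eq_sum_shift] at key
  have hB0 : 0 < ((1 - a) / (2 * Real.exp 1)) ^ n := by
    have := Real.exp_pos 1
    have : 0 < 1 - a := by linarith
    positivity
  have hbound : ∀ k ∈ Finset.range (n + 1), |P.eval ((0 : ℝ) + k • (1 : ℝ))| <
      ((1 - a) / (2 * Real.exp 1)) ^ n := by
    intro k hk
    rw [Finset.mem_range] at hk
    have hk1 : (k : ℝ) ≤ n := by exact_mod_cast Nat.lt_succ_iff.mp hk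
    have e1 : (0 : ℝ) + k • (1 : ℝ) = k := by simp
    rw [e1, heval, Finset.abs_prod]
    have hk0 : (0 : ℝ) ≤ k := Nat.cast_nonneg k
    have hle : a + k * h ≤ 1 := by
      have : (k : ℝ) * h ≤ n * h := by nlinarith
      have h2 : (n : ℝ) * h = 1 - a := by rw [hh]; field_simp
      linarith
    exact hcon (a + k * h) (by nlinarith) hle
  have habs : |((h ^ n • (n.factorial : ℝ → ℝ)) 0 : ℝ)| <
      2 ^ n * ((1 - a) / (2 * Real.exp 1)) ^ n := by
    rw [← key]
    refine (Finset.abs_sum_le_sum_abs _ _).trans_lt ?_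
    have h2 : ∀ k ∈ Finset.range (n + 1),
        |(((-1 : ℤ) ^ (n - k) * n.choose k) • P.eval ((0 : ℝ) + k • (1 : ℝ)) : ℝ)| <
          (n.choose k : ℝ) * ((1 - a) / (2 * Real.exp 1)) ^ n := by
      intro k hk
      rw [zsmul_eq_mul, abs_mul]
      have h3 : |(((-1 : ℤ) ^ (n - k) * n.choose k : ℤ) : ℝ)| = n.choose k := by
        push_cast
        rw [abs_mul, abs_pow, abs_neg, abs_one, one_pow, one_mul, abs_of_nonneg (Nat.cast_nonneg _)]
      rw [h3]
      have h5 : (0 : ℝ) < n.choose k := by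
        exact_mod_cast Nat.choose_pos (Nat.lt_succ_iff.mp (Finset.mem_range.mp hk))
      exact mul_lt_mul_of_pos_left (hbound k hk) h5
    refine (Finset.sum_lt_sum_of_nonempty ⟨0, by simp⟩ h2).trans_le ?_
    rw [← Finset.sum_mul]
    have h4 : (∑ k ∈ Finset.range (n + 1), (n.choose k : ℝ)) = 2 ^ n := by
      have := Nat.sum_range_choose n
      exact_mod_cast this
    rw [h4]
  have hval : ((h ^ n • (n.factorial : ℝ → ℝ)) 0 : ℝ) = h ^ n * n.factorial := by
    simp
  rw [hval] at habs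
  have hfac0 : (0 : ℝ) < n.factorial := by exact_mod_cast n.factorial_pos
  rw [abs_of_pos (by positivity)] at habs
  have hexp := Real.pow_div_factorial_le_exp (n : ℝ) (Nat.cast_nonneg n) n
  have he0 := Real.exp_pos 1
  have hen : Real.exp n = Real.exp 1 ^ n := by rw [← Real.exp_nat_mul, mul_one]
  rw [hen, div_le_iff₀ hfac0] at hexp
  have ha0 : 0 < 1 - a := by linarith
  have e3 : 2 ^ n * ((1 - a) / (2 * Real.exp 1)) ^ n * (n ^ n * Real.exp 1 ^ n) =
      (1 - a) ^ n * (n : ℝ) ^ n := by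
    rw [← mul_pow, ← mul_pow, ← mul_pow, ← mul_pow]
    congr 1
    field_simp
  have e4 : h ^ n * n.factorial * (n ^ n * Real.exp 1 ^ n) =
      (1 - a) ^ n * (Real.exp 1 ^ n * n.factorial) := by
    have e5 : h ^ n * (n : ℝ) ^ n = (1 - a) ^ n := by
      rw [← mul_pow, hh]
      congr 1
      field_simp
    rw [← e5]
    ring
  have e6 : h ^ n * n.factorial * (n ^ n * Real.exp 1 ^ n) <
      2 ^ n * ((1 - a) / (2 * Real.exp 1)) ^ n * (n ^ n * Real.exp 1 ^ n) :=
    mul_lt_mul_of_pos_right habs (by positivity)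
  rw [e3, e4] at e6
  have e7 : (1 - a) ^ n * (n : ℝ) ^ n ≤ (1 - a) ^ n * (Real.exp 1 ^ n * n.factorial) :=
    mul_le_mul_of_nonneg_left hexp (by positivity)
  exact absurd e6 (not_lt.mpr e7)

end Pool.Agent.helper6.LD
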