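import Mathlib
import Pool.Agent.helper52.LD.T3

/-!
Turan's second main theorem with a long range of exponents.
-/

set_option autoImplicit false

open Finset

namespace Pool.Agent.helper6.LD

/-- T4: a long range of exponents -/
theorem turan {ι : Type*} (S : Finset ι) (b : ι → ℝ) (hb : ∀ i ∈ S, 1 ≤ b i) (w : ι → ℂ)
    (K : ℕ) {δ : ℝ} (hδ : 0 < δ) (hδ1 : δ ≤ 1) (hK : 4 * (S.card : ℝ) ≤ δ * K)
    {i₀ : ι} (hi₀ : i₀ ∈ S) :
    ∃ k : ℕ, K ≤ k ∧ (k : ℝ) ≤ (1 + δ) * K ∧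
      (δ / 500) ^ S.card * ‖w i₀‖ ^ k ≤ ‖∑ i ∈ S, (b i : ℂ) * w i ^ k‖ := by
  classical
  obtain ⟨i₁, hi₁, hmax⟩ := Finset.exists_max_image S (fun i => ‖w i‖) ⟨i₀, hi₀⟩
  set n : ℕ := S.card with hn
  have hn1 : 1 ≤ n := Finset.card_pos.mpr ⟨i₀, hi₀⟩
  have hnR : (1 : ℝ) ≤ n := by exact_mod_cast hn1
  have hn0 : (0 : ℝ) < n := by linarith
  have hK0 : (0 : ℝ) < K := by
    by_contra h
    push Not at h
    have : δ * (K : ℝ) ≤ 0 := mul_nonpos_of_nonneg_of_nonpos hδ.le h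
    linarith
  set q : ℕ := ⌊δ * K / (2 * n)⌋₊ with hq
  have hq2 : 2 ≤ δ * K / (2 * n) := by
    rw [le_div_iff₀ (by linarith)]
    linarith
  have hqle : (q : ℝ) ≤ δ * K / (2 * n) := Nat.floor_le (by linarith)
  have hqlt : δ * K / (2 * n) < q + 1 := Nat.lt_floor_add_one _
  have hqge : δ * K / (4 * n) ≤ q := by
    have : δ * K / (4 * n) = δ * K / (2 * n) / 2 := by field_simp; norm_num
    rw [this]
    linarith
  have hq0 : (0 : ℝ) < q := by linarith
  have hqpos : 0 < q := by exact_mod_cast hq0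
  have hqn : (q : ℝ) * n ≤ δ * K / 2 := by
    rw [le_div_iff₀ (by linarith)] at hqle
    linarith
  set m : ℕ := ⌈(K : ℝ) / q⌉₊ with hm
  have hKq0 : 0 < (K : ℝ) / q := div_pos hK0 hq0
  have hm1 : 1 ≤ m := Nat.one_le_ceil_iff.mpr hKq0
  have hmge : (K : ℝ) / q ≤ m := Nat.le_ceil _
  have hmlt : (m : ℝ) < (K : ℝ) / q + 1 := Nat.ceil_lt_add_one hKq0.le
  obtain ⟨k', hk1, hk2, hk3⟩ := turan_second S b hb (fun i => w i ^ q) m hm1 hi₁ (by
    intro i hi
    simp only [norm_pow]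
    exact pow_le_pow_left₀ (norm_nonneg _) (hmax i hi) q)
  rw [← hn] at hk2 hk3
  have hKm : (K : ℝ) ≤ q * m := by
    rw [div_le_iff₀ hq0] at hmge
    linarith
  have hqm : (q : ℝ) * m ≤ K + q := by
    have : (q : ℝ) * m < q * ((K : ℝ) / q + 1) := mul_lt_mul_of_pos_left hmlt hq0
    have e : (q : ℝ) * ((K : ℝ) / q + 1) = K + q := by field_simp
    linarith
  have hk1R : (m : ℝ) + 1 ≤ k' := by exact_mod_cast hk1
  have hk2R : (k' : ℝ) ≤ m + n := by exact_mod_cast hk2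
  refine ⟨q * k', ?_, ?_, ?_⟩
  · have : (K : ℝ) ≤ ((q * k' : ℕ) : ℝ) := by
      push_cast
      nlinarith
    exact_mod_cast this
  · push_cast
    have : (q : ℝ) * k' ≤ q * (m + n) := mul_le_mul_of_nonneg_left hk2R hq0.le
    nlinarith
  · have hsum : ∑ i ∈ S, (b i : ℂ) * w i ^ (q * k') = ∑ i ∈ S, (b i : ℂ) * (w i ^ q) ^ k' := by
      apply Finset.sum_congr rfl
      intro i _
      rw [pow_mul]
    rw [hsum]
    refine le_trans ?_ hk3
    have hw : ‖w i₀‖ ^ (q * k') ≤ ‖w i₁ ^ q‖ ^ k' := by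
      rw [norm_pow, ← pow_mul]
      exact pow_le_pow_left₀ (norm_nonneg _) (hmax i₀ hi₀) _
    have hmn : (m : ℝ) + n ≤ 6 * n / δ := by
      have h1 : (K : ℝ) / q ≤ 4 * n / δ := by
        rw [div_le_div_iff₀ hq0 hδ]
        rw [div_le_iff₀ (by linarith)] at hqge
        linarith
      have h2 : (2 : ℝ) * n ≤ 2 * n / δ := by
        rw [le_div_iff₀ hδ]
        nlinarith
      have h3 : 4 * (n : ℝ) / δ + 2 * n / δ = 6 * n / δ := by ring
      linarith
    have hm0 : (0 : ℝ) ≤ m := Nat.cast_nonneg m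
    have he2 : Real.exp 2 < 7.3891 := by
      have h1 := Real.exp_one_lt_d9
      have h2 : Real.exp 2 = Real.exp 1 * Real.exp 1 := by rw [← Real.exp_add]; norm_num
      rw [h2]
      nlinarith [Real.exp_pos 1]
    have he0 := Real.exp_pos 2
    have hbase : δ / 250 * 1 ≤ (n : ℝ) / (4 * Real.exp 2 * (m + n)) := by
      rw [mul_one, div_le_div_iff₀ (by norm_num) (by positivity)]
      have h1 : (m + n : ℝ) * δ ≤ 6 * n := by
        rw [le_div_iff₀ hδ] at hmn
        linarith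
      calc δ * (4 * Real.exp 2 * (m + n)) = 4 * Real.exp 2 * ((m + n) * δ) := by ring
        _ ≤ 4 * Real.exp 2 * (6 * n) := by gcongr
        _ ≤ n * 250 := by nlinarith
    have hn2 : (n : ℝ) ≤ 2 ^ n := by exact_mod_cast (Nat.lt_two_pow_self (n := n)).le
    have hcoef : (δ / 500) ^ n ≤ (n : ℝ)⁻¹ * ((n : ℝ) / (4 * Real.exp 2 * (m + n))) ^ n := by
      calc (δ / 500) ^ n = (2 ^ n)⁻¹ * (δ / 250 * 1) ^ n := by
            rw [← inv_pow, ← mul_pow]
            congr 1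
            ring
        _ ≤ (n : ℝ)⁻¹ * ((n : ℝ) / (4 * Real.exp 2 * (m + n))) ^ n := by
            apply mul_le_mul
            · exact inv_anti₀ hn0 hn2
            · exact pow_le_pow_left₀ (by positivity) hbase n
            · positivity
            · positivity
    exact mul_le_mul hcoef hw (by positivity) (by positivity)

end Pool.Agent.helper6.LD
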